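import Pool.Agent.Run7.h79.FJ.Virt

/-!
# Graph products of finite and infinite cyclic groups
-/

set_option autoImplicit false

namespace Run7.h79.FJ

open Q30.FJ Pool.Agent.Y110.FJ
open Pool.Agent.R941.FJ (C_equiv C_le C_cyc)

variable {C : ∀ (G : Type) [Group G], Prop}

/-- homomorphisms of infinite cyclic groups -/
theorem cyc_hom {G : Type} [Group G] (B : Subgroup G) (hB : ¬ Finite B) (x : G)
    (hx : B = Subgroup.zpowers x) (H : Type) [Group H] (z : H) :
    ∃ f : B →* H, ∀ hxB : x ∈ B, f ⟨x, hxB⟩ = z := by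
  subst hx
  have h1 : Function.Injective (zpowersHom G x) := by
    intro a b hab
    have h2 : ¬ IsOfFinOrder x := by
      intro h3
      exact hB (finite_zpowers.2 h3).to_subtype
    exact (injective_zpow_iff_not_isOfFinOrder.2 h2) hab
  let e : Multiplicative ℤ ≃* Subgroup.zpowers x := MonoidHom.ofInjective h1
  refine ⟨(zpowersHom H z).comp e.symm.toMonoidHom, fun hxB => ?_⟩
  have h2 : e (Multiplicative.ofAdd 1) = ⟨x, hxB⟩ := by
    apply Subtype.ext
    show x ^ (1 : ℤ) = x
    rw [zpow_one]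
  show zpowersHom H z (e.symm ⟨x, hxB⟩) = z
  rw [← h2, e.symm_apply_apply, zpowersHom_apply, toAdd_ofAdd, zpow_one]

/-- right-angled Artin groups -/
theorem good_raag (hC : ClosedE C)
    (hF : ∀ (X : Type) (α : MulAut (FreeGroup X)),
      C (FreeGroup X ⋊[zpowersHom (MulAut (FreeGroup X)) α] Multiplicative ℤ))
    (hB : ∀ (B : Type) [CommGroup B] (α : MulAut B),
      C (B ⋊[zpowersHom (MulAut B) α] Multiplicative ℤ))
    {G₀ V : Type} [Group G₀] [Finite V] {Λ : SimpleGraph V} {A : V → Subgroup G₀}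
    {N : Subgroup G₀} (h : GProd Λ A N) (hA : ∀ v, ¬ Finite (A v))
    (hcyc : ∀ v, IsCyclic (A v)) : Good C N := by
  intro G _ N' _ ⟨e⟩ hQ
  have hgen : ∀ v, ∃ x : G₀, A v = Subgroup.zpowers x := by
    intro v
    obtain ⟨⟨x, hx⟩, hgx⟩ := (hcyc v).exists_generator
    refine ⟨x, le_antisymm ?_ ?_⟩
    · intro y hy
      obtain ⟨n, hn⟩ := hgx ⟨y, hy⟩
      exact ⟨n, congrArg Subtype.val hn⟩
    · rw [Subgroup.zpowers_le]
      exact hx
  choose x hx using hgen
  have hxA : ∀ v, x v ∈ A v := fun v => by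
    rw [hx v]
    exact Subgroup.mem_zpowers _
  obtain ⟨y, hy⟩ : ∃ y : V → N', ∀ v, y v = e.symm ⟨x v, h.le v (hxA v)⟩ := ⟨_, fun _ => rfl⟩
  refine Run7.h370.RA.raag_main hC hF hB Λ N' (fun v => (y v : G)) ⟨?_, ?_, ?_⟩ hQ
  · apply le_antisymm
    · rw [Subgroup.closure_le]
      rintro _ ⟨v, rfl⟩
      exact (y v).2
    · obtain ⟨M, hM⟩ : ∃ M : Subgroup N', M = Subgroup.closure (Set.range y) := ⟨_, rfl⟩
      have h1 : N ≤ (M.map e.toMonoidHom).map N.subtype := by
        apply h.gen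
        intro v
        rw [hx v, Subgroup.zpowers_le]
        refine ⟨e (y v), ⟨y v, ?_, rfl⟩, ?_⟩
        · rw [hM]
          exact Subgroup.subset_closure ⟨v, rfl⟩
        · rw [hy, e.apply_symm_apply]
          rfl
      intro z hz
      obtain ⟨_, ⟨w, hw, rfl⟩, hwz⟩ := h1 (e ⟨z, hz⟩).2
      have h2 : w = ⟨z, hz⟩ := e.injective (Subtype.ext hwz)
      have h3 : M ≤ (Subgroup.closure (Set.range fun v => (y v : G))).comap N'.subtype := by
        rw [hM, Subgroup.closure_le]
        rintro _ ⟨v, rfl⟩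
        exact Subgroup.subset_closure ⟨v, rfl⟩
      have h4 := h3 hw
      rw [h2] at h4
      exact h4
  · intro v w hvw
    have h1 : y v * y w = y w * y v := by
      rw [hy, hy, ← map_mul, ← map_mul]
      congr 1
      exact Subtype.ext (h.comm v w hvw _ (hxA v) _ (hxA w))
    exact congrArg Subtype.val h1
  · intro H _ z hz
    have hf : ∀ v, ∃ f : A v →* H, f ⟨x v, hxA v⟩ = z v := by
      intro v
      obtain ⟨f, hf⟩ := cyc_hom (A v) (hA v) (x v) (hx v) H (z v)
      exact ⟨f, hf _⟩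
    choose f hf using hf
    have hpow : ∀ v (a : A v), ∃ n : ℤ, a = (⟨x v, hxA v⟩ : A v) ^ n := by
      intro v a
      have h1 : a.1 ∈ Subgroup.zpowers (x v) := by rw [← hx v]; exact a.2
      obtain ⟨n, hn⟩ := Subgroup.mem_zpowers_iff.1 h1
      exact ⟨n, Subtype.ext hn.symm⟩
    obtain ⟨φ, hφ⟩ := h.univ H f (by
      intro v w hvw a b
      obtain ⟨n, rfl⟩ := hpow v a
      obtain ⟨m, rfl⟩ := hpow w b
      rw [map_zpow, map_zpow, hf, hf]
      have h1 : Commute (z v) (z w) := hz v w hvw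
      exact (h1.zpow_zpow n m).eq)
    refine ⟨φ.comp e.toMonoidHom, fun v hv => ?_⟩
    have h1 : (⟨(y v : G), hv⟩ : N') = y v := rfl
    rw [h1, hy]
    show φ (e (e.symm _)) = z v
    rw [e.apply_symm_apply, hφ v ⟨x v, hxA v⟩, hf]

theorem closedF (hC : ClosedE C)
    (hF : ∀ (X : Type) (α : MulAut (FreeGroup X)),
      C (FreeGroup X ⋊[zpowersHom (MulAut (FreeGroup X)) α] Multiplicative ℤ)) : ClosedF C :=
  ⟨hC, fun _ _ N _ _ hQ => Pool.Agent.R684.FP.free_ext hC hF N hQ⟩

/-- graph products with finite vertex groups in `S` -/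
theorem good_gprod (hF : ClosedF C) {G₀ V : Type} [Group G₀] [Finite V] {Λ : SimpleGraph V}
    {A : V → Subgroup G₀} {N : Subgroup G₀} (h : GProd Λ A N) (S : Set V)
    (hfin : ∀ v ∈ S, Finite (A v)) (hft : ∀ v (e : ℕ), e ≠ 0 → FT e (A v))
    (hgood : Good C (par A Sᶜ)) : Good C N := by
  intro G _ N' _ ⟨e⟩ hQ
  -- transport of the graph product
  obtain ⟨j, hj⟩ : ∃ j : N →* G, j = N'.subtype.comp e.symm.toMonoidHom := ⟨_, rfl⟩
  have hji : Function.Injective j := by
    rw [hj]
    exact N'.subtype_injective.comp e.symm.injective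
  obtain ⟨B, hB⟩ : ∃ B : V → Subgroup G, ∀ v, B v = ((A v).subgroupOf N).map j :=
    ⟨_, fun _ => rfl⟩
  have hrange : j.range = N' := by
    rw [hj]
    ext z
    constructor
    · rintro ⟨y, rfl⟩
      exact (e.symm y).2
    · intro hz
      exact ⟨e ⟨z, hz⟩, congrArg Subtype.val (e.symm_apply_apply ⟨z, hz⟩)⟩
  have hBN : ∀ v, B v ≤ N' := by
    intro v
    rw [hB, ← hrange]
    rintro _ ⟨y, _, rfl⟩
    exact ⟨y, rfl⟩
  have hmem : ∀ v (a : A v), j ⟨a, h.le v a.2⟩ ∈ B v := fun v a => by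
    rw [hB]
    exact ⟨⟨a, h.le v a.2⟩, a.2, rfl⟩
  have hprod : GProd Λ B N' := by
    refine ⟨hBN, ?_, ?_, ?_⟩
    · intro M hM
      have h1 : N ≤ (M.comap j).map N.subtype := by
        apply h.gen
        intro v a ha
        exact ⟨⟨a, h.le v ha⟩, hM v (hmem v ⟨a, ha⟩), rfl⟩
      rw [← hrange]
      rintro _ ⟨y, rfl⟩
      obtain ⟨z, hz, hzy⟩ := h1 y.2
      have : z = y := Subtype.ext hzy
      rwa [this] at hz
    · intro v w hvw a ha b hb
      rw [hB] at ha hb
      obtain ⟨a', ha', rfl⟩ := ha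
      obtain ⟨b', hb', rfl⟩ := hb
      rw [← map_mul, ← map_mul]
      congr 1
      exact Subtype.ext (h.comm v w hvw _ ha' _ hb')
    · intro H _ f hf
      obtain ⟨φ, hφ⟩ := h.univ H (fun v => (f v).comp (MonoidHom.mk' (fun a => ⟨_, hmem v a⟩)
        (fun a b => Subtype.ext (map_mul j ⟨a.1, h.le v a.2⟩ ⟨b.1, h.le v b.2⟩)))) (by
          intro v w hvw a b
          exact hf v w hvw _ _)
      refine ⟨φ.comp e.toMonoidHom, ?_⟩
      rintro v ⟨b, hb⟩
      have hb' : b ∈ ((A v).subgroupOf N).map j := by rw [← hB]; exact hb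
      obtain ⟨a, ha, rfl⟩ := hb'
      have h1 : e ⟨j a, hBN v hb⟩ = a := by
        apply e.symm.injective
        rw [e.symm_apply_apply]
        apply Subtype.ext
        show j a = (e.symm a : N')
        rw [hj]
        rfl
      show φ (e ⟨j a, _⟩) = _
      rw [h1]
      exact hφ v ⟨a.1, ha⟩
  have heq : ∀ D : Subgroup G₀, D ≤ N → Nonempty (D ≃* (D.subgroupOf N).map j) := by
    intro D hD
    obtain ⟨e2⟩ := map_equiv j (D.subgroupOf N) (fun y _ hy => hji (hy.trans (map_one j).symm))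
    exact ⟨(Subgroup.subgroupOfEquivOfLe hD).symm.trans e2⟩
  refine main_aux hF _ V rfl Λ S G B N' hprod ?_ ?_ ?_ hQ
  · intro v hv
    obtain ⟨e1⟩ := heq (A v) (h.le v)
    have := hfin v hv
    rw [hB]
    exact Finite.of_equiv _ e1.toEquiv
  · intro v m hm
    obtain ⟨e1⟩ := heq (A v) (h.le v)
    rw [hB]
    exact (hft v m hm).equiv e1
  · obtain ⟨e1⟩ := heq (par A Sᶜ) (GProd.par_le h _)
    have h2 : par B Sᶜ = ((par A Sᶜ).subgroupOf N).map j := by
      apply le_antisymm
      · apply par_le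
        intro v hv
        rw [hB]
        apply Subgroup.map_mono
        intro a ha
        exact le_par (A := A) (S := Sᶜ) hv ha
      · rw [Subgroup.map_le_iff_le_comap]
        have h3 : par A Sᶜ ≤ ((par B Sᶜ).comap j).map N.subtype := by
          apply par_le
          intro v hv a ha
          exact ⟨⟨a, h.le v ha⟩, le_par (A := B) (S := Sᶜ) hv (hmem v ⟨a, ha⟩), rfl⟩
        intro y hy
        obtain ⟨z, hz, hzy⟩ := h3 hy
        have : z = y := Subtype.ext hzy
        rwa [this] at hz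
    rw [h2]
    exact hgood.equiv e1

theorem fg_of_index {K : Type} [Group K] (H : Subgroup K) (hH : H.index ≠ 0) (hfg : H.FG) :
    Group.FG K := by
  obtain ⟨S, hS⟩ := hfg
  have hfi : H.FiniteIndex := ⟨hH⟩
  have : Finite (K ⧸ H) := inferInstance
  rw [Group.fg_iff]
  refine ⟨(S : Set K) ∪ Set.range (fun c : K ⧸ H => c.out), ?_,
    S.finite_toSet.union (Set.finite_range _)⟩
  rw [eq_top_iff]
  rintro x -
  obtain ⟨M, hM⟩ : ∃ M, M = Subgroup.closure ((S : Set K) ∪ Set.range (fun c : K ⧸ H => c.out)) :=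
    ⟨_, rfl⟩
  rw [← hM]
  have h1 : H ≤ M := by
    rw [← hS, hM]
    exact Subgroup.closure_mono Set.subset_union_left
  have h2 : (QuotientGroup.mk x : K ⧸ H).out ∈ M := by
    rw [hM]
    exact Subgroup.subset_closure (Or.inr ⟨_, rfl⟩)
  have h3 : ((QuotientGroup.mk x : K ⧸ H).out)⁻¹ * x ∈ H := QuotientGroup.eq.1 (QuotientGroup.out_eq' _)
  have h4 := M.mul_mem h2 (h1 h3)
  rwa [mul_inv_cancel_left] at h4

/-- **graph products of finite and infinite cyclic groups** -/
theorem good_fc (hC : ClosedE C)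
    (hF : ∀ (X : Type) (α : MulAut (FreeGroup X)),
      C (FreeGroup X ⋊[zpowersHom (MulAut (FreeGroup X)) α] Multiplicative ℤ))
    (hB : ∀ (B : Type) [CommGroup B] (α : MulAut B),
      C (B ⋊[zpowersHom (MulAut B) α] Multiplicative ℤ))
    {G₀ V : Type} [Group G₀] [Finite V] {Λ : SimpleGraph V} {A : V → Subgroup G₀}
    {N : Subgroup G₀} (h : GProd Λ A N) (hA : ∀ v, Finite (A v) ∨ IsCyclic (A v)) : Good C N := by
  refine good_gprod (closedF hC hF) h {v | Finite (A v)} (fun v hv => hv) ?_ ?_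
  · intro v m hm
    by_cases hf : Finite (A v)
    · exact FT.of_finite m _ hf
    · have hcyc := (hA v).resolve_left hf
      refine ⟨{1}, Set.finite_singleton _, fun x hx hxm => ⟨1, Subgroup.one_mem _, ?_⟩⟩
      have h1 : x = 1 := by
        by_contra hne
        apply hf
        obtain ⟨⟨y, hy⟩, hgy⟩ := hcyc.exists_generator
        obtain ⟨n, hn⟩ := hgy ⟨x, hx⟩
        have hn' : y ^ n = x := congrArg Subtype.val hn
        have hn0 : n ≠ 0 := by
          rintro rfl
          apply hne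
          rw [← hn', zpow_zero]
        have hyf : IsOfFinOrder (⟨y, hy⟩ : A v) := by
          rw [isOfFinOrder_iff_zpow_eq_one]
          refine ⟨n * m, mul_ne_zero hn0 (by exact_mod_cast hm), ?_⟩
          apply Subtype.ext
          show y ^ (n * (m : ℤ)) = 1
          rw [zpow_mul, hn', zpow_natCast, hxm]
        have hfz : Finite (Subgroup.zpowers (⟨y, hy⟩ : A v)) := (finite_zpowers.2 hyf).to_subtype
        have htop : Subgroup.zpowers (⟨y, hy⟩ : A v) = ⊤ := by
          rw [eq_top_iff]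
          rintro z -
          exact hgy z
        rw [htop] at hfz
        exact Finite.of_equiv _ Subgroup.topEquiv.toEquiv
      rw [h1]
      simp
  · exact good_raag hC hF hB (GProd.par h _) (fun v => v.2) (fun v => (hA v).resolve_left v.2)

end Run7.h79.FJ
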