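import Pool.Agent.Run7.h79.FJ.Cyc

/-!
# Statements for abstract graph products
-/

set_option autoImplicit false

namespace Run7.h79.FJ

open Q30.FJ Pool.Agent.Y110.FJ

/-- `K` is the (internal) graph product of its subgroups `A v` along the graph `Γ`: it is generated
by the `A v`, the elements of `A v` and `A w` commute for adjacent `v` and `w`, and homomorphisms of
the `A v` whose images commute for adjacent vertices extend to `K`. -/
structure IsGraphProduct {K V : Type} [Group K] (Γ : SimpleGraph V) (A : V → Subgroup K) : Prop where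
  gen : ⨆ v, A v = ⊤
  comm : ∀ v w, Γ.Adj v w → ∀ a ∈ A v, ∀ b ∈ A w, a * b = b * a
  univ : ∀ (H : Type) [Group H] (f : ∀ v, A v →* H),
    (∀ v w, Γ.Adj v w → ∀ (a : A v) (b : A w), f v a * f w b = f w b * f v a) →
    ∃ φ : K →* H, ∀ v (a : A v), φ a = f v a

/-- for each exponent there are only finitely many conjugacy classes of solutions of `x ^ e = 1`
(for example torsion-free groups, finite groups, virtually polycyclic groups, hyperbolic groups) -/
def FewTorsionClasses (A : Type) [Group A] : Prop :=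
  ∀ e : ℕ, e ≠ 0 → ∃ T : Set A, T.Finite ∧ ∀ x : A, x ^ e = 1 → ∃ c : A, c * x * c⁻¹ ∈ T

theorem FewTorsionClasses.ft {K : Type} [Group K] {A : Subgroup K} (h : FewTorsionClasses A) (e : ℕ)
    (he : e ≠ 0) : FT e A := by
  obtain ⟨T, hT, h⟩ := h e he
  refine ⟨Subtype.val '' T, hT.image _, fun x hx hxe => ?_⟩
  obtain ⟨c, hc⟩ := h ⟨x, hx⟩ (Subtype.ext hxe)
  exact ⟨c, c.2, _, hc, rfl⟩

theorem IsGraphProduct.gprod {K V : Type} [Group K] {Γ : SimpleGraph V} {A : V → Subgroup K}
    (h : IsGraphProduct Γ A) : GProd Γ A ⊤ where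
  le := fun _ => le_top
  gen := fun M hM => by
    rw [← h.gen]
    exact iSup_le hM
  comm := h.comm
  univ := fun H _ f hf => by
    obtain ⟨φ, hφ⟩ := h.univ H f hf
    exact ⟨φ.comp (Subgroup.subtype ⊤), hφ⟩

theorem part_one {C : ∀ (G : Type) [Group G], Prop} (hF : ClosedF C) {K V : Type} [Group K]
    [Finite V] {Γ : SimpleGraph V} {A : V → Subgroup K} (h : IsGraphProduct Γ A) (S : Set V)
    (hS : ∀ v ∈ S, Finite (A v)) (hT : ∀ v, v ∉ S → FewTorsionClasses (A v))
    (hgood : Good C ↥(⨆ v : ↥Sᶜ, A v)) : Good C K := by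
  refine (good_gprod hF h.gprod S hS ?_ hgood).equiv Subgroup.topEquiv
  intro v e he
  by_cases hv : v ∈ S
  · exact FT.of_finite e _ (hS v hv)
  · exact (hT v hv).ft e he

theorem part_two {C : ∀ (G : Type) [Group G], Prop} (hC : ClosedE C)
    (hF : ∀ (X : Type) (α : MulAut (FreeGroup X)),
      C (FreeGroup X ⋊[zpowersHom (MulAut (FreeGroup X)) α] Multiplicative ℤ))
    (hB : ∀ (B : Type) [CommGroup B] (α : MulAut B),
      C (B ⋊[zpowersHom (MulAut B) α] Multiplicative ℤ))
    {K V : Type} [Group K] (H : Subgroup K) [H.FiniteIndex] [Finite V] {Γ : SimpleGraph V}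
    {A : V → Subgroup H} (h : IsGraphProduct Γ A) (hA : ∀ v, Finite (A v) ∨ IsCyclic (A v)) :
    Good C K := by
  have h1 : Good C H := (good_fc hC hF hB h.gprod hA).equiv Subgroup.topEquiv
  have hfg : Group.FG H := by
    have h2 : ∀ v, (A v).FG := by
      intro v
      rw [← Group.fg_iff_subgroup_fg]
      rcases hA v with h3 | h3
      · infer_instance
      · obtain ⟨g, hg⟩ := h3.exists_generator
        rw [Group.fg_iff]
        refine ⟨{g}, ?_, Set.finite_singleton g⟩
        rw [eq_top_iff]
        rintro x -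
        rw [← Subgroup.zpowers_eq_closure]
        exact hg x
    choose T hT using h2
    rw [Group.fg_iff]
    refine ⟨⋃ v, (T v : Set H), ?_, Set.finite_iUnion fun v => (T v).finite_toSet⟩
    rw [Subgroup.closure_iUnion, ← h.gen]
    exact iSup_congr hT
  exact good_virt hC (fg_of_index H Subgroup.FiniteIndex.index_ne_zero
    ((Group.fg_iff_subgroup_fg H).1 hfg)) H Subgroup.FiniteIndex.index_ne_zero h1

end Run7.h79.FJ
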