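import Pool.Agent.Run7.h79.FJ.Par
import Pool.Agent.Q30.FJ.Cons

/-!
# Kernels which are free products of conjugates of a finite group
-/

set_option autoImplicit false

namespace Run7.h79.FJ

open Q30.FJ Pool.Agent.Y110.FJ

variable {C : ∀ (G : Type) [Group G], Prop}

/-- subgroups of the kernels of all retractions of a free product are free -/
theorem free_of_rk {G I : Type} [Group G] {A : I → Subgroup G} {M : Subgroup G}
    (hk : GProd (⊥ : SimpleGraph I) A M) {p : ∀ i, M →* A i} (hp : Retr A M p) (D : Subgroup G)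
    (hDM : D ≤ M) (hD : ∀ x ∈ D, ∀ i, x ∈ rk M p i) : IsFreeGroup D := by
  classical
  obtain ⟨φ, hφ⟩ := hk.univ (Monoid.CoprodI fun i => A i)
      (fun i => Monoid.CoprodI.of (M := fun i => A i) (i := i))
      (fun v w h => h.elim)
  have hφi : Function.Injective φ := by
    have h1 : (Monoid.CoprodI.lift (M := fun i => A i) (N := M)
        (fun i => Subgroup.inclusion (hk.le i))).comp φ = MonoidHom.id M := by
      apply hp.hom_eq
      intro i a
      rw [MonoidHom.comp_apply, hφ, Monoid.CoprodI.lift_of]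
      rfl
    intro x y hxy
    have h2 := DFunLike.congr_fun h1 x
    have h3 := DFunLike.congr_fun h1 y
    have h4 : Monoid.CoprodI.lift (M := fun i => A i) (N := M)
      (fun i => Subgroup.inclusion (hk.le i)) (φ x) = x := h2
    have h5 : Monoid.CoprodI.lift (M := fun i => A i) (N := M)
      (fun i => Subgroup.inclusion (hk.le i)) (φ y) = y := h3
    rw [← h4, ← h5, hxy]
  let ψ : D →* Monoid.CoprodI fun i => A i := φ.comp (Subgroup.inclusion hDM)
  have hψ : Function.Injective ψ := hφi.comp (Subgroup.inclusion_injective hDM)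
  have hfree : IsFreeGroup ψ.range := by
    refine ker_free (P := ∀ i, A i) (fun i => MonoidHom.mulSingle (fun i => A i) i)
      (fun i => Pi.mulSingle_injective (M := fun i => A i) i) ψ.range ?_
    rintro _ ⟨x, rfl⟩
    have h1 : (Monoid.CoprodI.lift fun i => MonoidHom.mulSingle (fun i => A i) i).comp φ =
        MonoidHom.mk' (fun y : M => fun i => p i y) (fun y z => by
          funext i
          show p i (y * z) = p i y * p i z
          rw [map_mul]) := by
      apply hp.hom_eq
      intro i a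
      show Monoid.CoprodI.lift _ (φ ⟨a, _⟩) = fun j => p j ⟨a, _⟩
      rw [hφ, Monoid.CoprodI.lift_of]
      funext j
      by_cases hij : j = i
      · subst hij
        rw [hp.same]
        exact Pi.mulSingle_eq_same (M := fun i => A i) _ _
      · rw [hp.other j i a hij]
        exact Pi.mulSingle_eq_of_ne (M := fun i => A i) hij _
    have h2 := DFunLike.congr_fun h1 (Subgroup.inclusion hDM x)
    have h3 : Monoid.CoprodI.lift (fun i => MonoidHom.mulSingle (fun i => A i) i) (ψ x) =
      fun i => p i (Subgroup.inclusion hDM x) := h2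
    rw [h3]
    funext i
    have h4 := hD x.1 x.2 i
    rw [mem_rk] at h4
    obtain ⟨h5, h6⟩ := h4
    exact h6
  exact IsFreeGroup.ofMulEquiv (MonoidHom.ofInjective hψ).symm

/-- the intersection of the kernels of all homomorphisms to `P` -/
def vb {G : Type} [Group G] (M : Subgroup G) (P : Type) [Group P] : Subgroup G :=
  (⨅ f : M →* P, f.ker).map M.subtype

theorem mem_vb {G : Type} [Group G] {M : Subgroup G} {P : Type} [Group P] {x : G} :
    x ∈ vb M P ↔ ∃ hx : x ∈ M, ∀ f : M →* P, f ⟨x, hx⟩ = 1 := by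
  constructor
  · rintro ⟨y, hy, rfl⟩
    refine ⟨y.2, fun f => ?_⟩
    have h1 : y ∈ ⨅ f : M →* P, f.ker := hy
    rw [Subgroup.mem_iInf] at h1
    exact h1 f
  · rintro ⟨hx, h⟩
    refine ⟨⟨x, hx⟩, ?_, rfl⟩
    show _ ∈ ⨅ f : M →* P, f.ker
    rw [Subgroup.mem_iInf]
    exact h

theorem vb_le {G : Type} [Group G] (M : Subgroup G) (P : Type) [Group P] : vb M P ≤ M :=
  fun _ hx => (mem_vb.1 hx).1

theorem vb_normal {G : Type} [Group G] (M : Subgroup G) [hM : M.Normal] (P : Type) [Group P] :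
    (vb M P).Normal := by
  constructor
  intro x hx g
  rw [mem_vb] at hx ⊢
  obtain ⟨hx, h⟩ := hx
  refine ⟨hM.conj_mem x hx g, fun f => ?_⟩
  exact h (f.comp (MulAut.conjNormal g : MulAut M).toMonoidHom)

/-- the quotient by `vb` is locally finite -/
theorem vb_loc {G : Type} [Group G] (M : Subgroup G) (P : Type) [Group P] [Finite P]
    [(vb M P).Normal] (E : Set (G ⧸ vb M P)) (hE : E.Finite)
    (hEM : E ⊆ M.map (QuotientGroup.mk' (vb M P))) : Finite ↥(Subgroup.closure E) := by
  classical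
  have hlift : ∀ e : E, ∃ x : M, QuotientGroup.mk' (vb M P) x.1 = e.1 := by
    rintro ⟨e, he⟩
    obtain ⟨x, hx, hxe⟩ := hEM he
    exact ⟨⟨x, hx⟩, hxe⟩
  choose s hs using hlift
  obtain ⟨K, hK⟩ : ∃ K : Subgroup M, K = Subgroup.closure (Set.range s) := ⟨_, rfl⟩
  have hsur : ∀ y : ↥(Subgroup.closure E), ∃ x : K,
      QuotientGroup.mk' (vb M P) (x : M).1 = y.1 := by
    have h1 : Subgroup.closure E ≤ (K.map M.subtype).map (QuotientGroup.mk' (vb M P)) := by
      rw [Subgroup.closure_le]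
      intro e he
      refine ⟨(s ⟨e, he⟩).1, ⟨s ⟨e, he⟩, ?_, rfl⟩, hs ⟨e, he⟩⟩
      rw [hK]
      exact Subgroup.subset_closure ⟨_, rfl⟩
    rintro ⟨y, hy⟩
    obtain ⟨_, ⟨x, hx, rfl⟩, hxy⟩ := h1 hy
    exact ⟨⟨x, hx⟩, hxy⟩
  choose t ht using hsur
  have hEf : Finite E := hE
  -- the homomorphisms with given values on the generators
  obtain ⟨F, hFp⟩ : ∃ F : (E → P) → (M →* P), ∀ (f : M →* P), ∀ x ∈ K,
      F (fun e => f (s e)) x = f x := by
    refine ⟨fun r => if h : ∃ f : M →* P, (fun e => f (s e)) = r then h.choose else 1, ?_⟩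
    intro f x hx
    have hex : ∃ f' : M →* P, (fun e => f' (s e)) = fun e => f (s e) := ⟨f, rfl⟩
    have h1 := hex.choose_spec
    have h2 : K ≤ hex.choose.eqLocus f := by
      rw [hK, Subgroup.closure_le]
      rintro _ ⟨e, rfl⟩
      exact congrFun h1 e
    show (if h : ∃ f' : M →* P, (fun e => f' (s e)) = fun e => f (s e) then h.choose else 1) x = f x
    rw [dif_pos hex]
    exact h2 hx
  refine Finite.of_injective (fun y => fun r : E → P => F r (t y : M)) ?_
  intro y y' hyy
  have hval : ∀ f : M →* P, f (t y : M) = f (t y' : M) := by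
    intro f
    rw [← hFp f _ (t y).2, ← hFp f _ (t y').2]
    exact congrFun hyy _
  apply Subtype.ext
  rw [← ht y, ← ht y']
  apply QuotientGroup.eq.2
  rw [mem_vb]
  refine ⟨M.mul_mem (M.inv_mem (t y : M).2) (t y' : M).2, fun f => ?_⟩
  have h1 : (⟨((t y : M) : G)⁻¹ * ((t y' : M) : G), M.mul_mem (M.inv_mem (t y : M).2) (t y' : M).2⟩ : M) =
    (t y : M)⁻¹ * (t y' : M) := rfl
  rw [h1, map_mul, map_inv, hval f, inv_mul_cancel]

/-- **kernels generated by the conjugates of a finite group** -/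
theorem kfin (hF : ClosedF C) {G : Type} [Group G] {A₀ Q L₀ N : Subgroup G}
    (h : Rel (⊥ : SimpleGraph Unit) (fun _ : Unit => A₀) Q (fun _ => L₀) N) (hfin : Finite A₀)
    [hn : (nc N (fun _ : Unit => A₀)).Normal] (hQ : C (G ⧸ nc N (fun _ : Unit => A₀))) : C G := by
  classical
  have hk := h.kernel
  have hbot : relG (⊥ : SimpleGraph Unit) Q (fun _ => L₀) = ⊥ := by
    ext i j
    constructor
    · rintro ⟨h1, -⟩
      exact h1.elim
    · intro h1
      exact h1.elim
  rw [hbot] at hk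
  obtain ⟨M, hM⟩ : ∃ M, M = nc N (fun _ : Unit => A₀) := ⟨_, rfl⟩
  have hMn : M.Normal := by rw [hM]; exact hn
  have hQ' : C (G ⧸ M) := by
    subst hM
    exact hQ
  rw [← hM] at hk
  obtain ⟨p, hp⟩ := hk.retr
  have hDn : (vb M A₀).Normal := vb_normal M A₀
  refine hF.free G (vb M A₀) (free_of_rk hk hp _ (vb_le M A₀) ?_) ?_
  · intro x hx i
    obtain ⟨hxM, hx⟩ := mem_vb.1 hx
    rw [mem_rk]
    refine ⟨hxM, ?_⟩
    let e : relA (fun _ : Unit => A₀) Q (fun _ => L₀) i →* A₀ :=
      MonoidHom.mk' (fun y => ⟨(i.2.out : G)⁻¹ * y * (i.2.out : G), mem_relA.1 y.2⟩) (by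
        intro y z
        apply Subtype.ext
        show (i.2.out : G)⁻¹ * (y.1 * z.1) * (i.2.out : G) =
          (i.2.out : G)⁻¹ * y * (i.2.out : G) * ((i.2.out : G)⁻¹ * z * (i.2.out : G))
        group)
    have h1 := hx (e.comp (p i))
    have h2 : (i.2.out : G)⁻¹ * (p i ⟨x, hxM⟩ : relA (fun _ : Unit => A₀) Q (fun _ => L₀) i) *
      (i.2.out : G) = 1 := congrArg Subtype.val h1
    apply Subtype.ext
    show ((p i ⟨x, hxM⟩ : relA (fun _ : Unit => A₀) Q (fun _ => L₀) i) : G) = 1
    have h3 : ((p i ⟨x, hxM⟩ : relA (fun _ : Unit => A₀) Q (fun _ => L₀) i) : G) =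
      (i.2.out : G) * ((i.2.out : G)⁻¹ * (p i ⟨x, hxM⟩ : relA (fun _ : Unit => A₀) Q (fun _ => L₀) i) *
      (i.2.out : G)) * (i.2.out : G)⁻¹ := by group
    rw [h3, h2]
    group
  · have hBn : (M.map (QuotientGroup.mk' (vb M A₀))).Normal :=
      Subgroup.Normal.map hMn _ (QuotientGroup.mk'_surjective _)
    refine loc_fin hF.base _ (M.map (QuotientGroup.mk' (vb M A₀))) ?_ ?_
    · intro E hE hEM
      exact vb_loc M A₀ E hE hEM
    · exact hF.base.base.of_injective _ (G ⧸ M)
        (QuotientGroup.quotientQuotientEquivQuotient (vb M A₀) M (vb_le M A₀)).toMonoidHom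
        (QuotientGroup.quotientQuotientEquivQuotient (vb M A₀) M (vb_le M A₀)).injective hQ'

end Run7.h79.FJ
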