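import Pool.Agent.Run7.h79.FJ.Tor
import Pool.Agent.Run7.h79.FJ.Ker
import Pool.Agent.Run7.h370.RA.Main
import Pool.Agent.Q30.FJ.GPm

/-!
# Extensions whose kernels are graph products with finite vertex groups
-/

set_option autoImplicit false

namespace Run7.h79.FJ

open Q30.FJ Pool.Agent.Y110.FJ
open Pool.Agent.R941.FJ (C_equiv C_le)

variable {C : ∀ (G : Type) [Group G], Prop}

/-- all extensions with kernel `K` and quotient in `C` are in `C` -/
def Good (C : ∀ (G : Type) [Group G], Prop) (K : Type) [Group K] : Prop :=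
  ∀ (G : Type) [Group G] (N : Subgroup G) [N.Normal], Nonempty (N ≃* K) → C (G ⧸ N) → C G

theorem Good.equiv {K K' : Type} [Group K] [Group K'] (h : Good C K) (e : K ≃* K') : Good C K' :=
  fun G _ N _ ⟨f⟩ hQ => h G N ⟨f.trans e.symm⟩ hQ

theorem map_equiv {G G' : Type} [Group G] [Group G'] (f : G →* G') (H : Subgroup G)
    (hf : ∀ x ∈ H, f x = 1 → x = 1) : Nonempty (H ≃* H.map f) := by
  refine ⟨MulEquiv.ofBijective (f.subgroupMap H) ⟨?_, f.subgroupMap_surjective H⟩⟩
  rw [injective_iff_map_eq_one]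
  intro x hx
  exact Subtype.ext (hf x.1 x.2 (congrArg Subtype.val hx))

theorem FT.equiv {G G' : Type} [Group G] [Group G'] {H : Subgroup G} {K : Subgroup G'} {n : ℕ}
    (h : FT n H) (e : H ≃* K) : FT n K := by
  obtain ⟨T, hT, h⟩ := h
  refine ⟨(fun x : H => ((e x : K) : G')) '' {x : H | x.1 ∈ T}, ?_, ?_⟩
  · apply Set.Finite.image
    exact hT.preimage (Subtype.val_injective.injOn)
  · intro y hy hyn
    have h1 : (e.symm ⟨y, hy⟩) ^ n = 1 := by
      rw [← map_pow]
      have : (⟨y, hy⟩ : K) ^ n = 1 := Subtype.ext hyn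
      rw [this, map_one]
    obtain ⟨c, hc, h2⟩ := h _ (e.symm ⟨y, hy⟩).2 (congrArg Subtype.val h1)
    refine ⟨e ⟨c, hc⟩, (e ⟨c, hc⟩).2, ⟨c, hc⟩ * e.symm ⟨y, hy⟩ * ⟨c, hc⟩⁻¹, h2, ?_⟩
    show ((e (⟨c, hc⟩ * e.symm ⟨y, hy⟩ * ⟨c, hc⟩⁻¹) : K) : G') = _
    rw [map_mul, map_mul, map_inv, e.apply_symm_apply]
    rfl

theorem inf_nc {G U : Type} [Group G] {Λ : SimpleGraph U} {A : U → Subgroup G} {Q N : Subgroup G}
    {L : U → Subgroup G} (h : Rel Λ A Q L N) {x : G} (hx : x ∈ Q) (hxn : x ∈ nc N A) : x = 1 := by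
  obtain ⟨π, hπA, hπQ⟩ := h.univ Q (fun v => 1) (MonoidHom.id Q)
      (fun v w _ a b => rfl) (fun v a b => by
        rw [MonoidHom.one_apply, one_mul, mul_one])
  have h1 : π ⟨x, h.leQ hx⟩ = 1 := nc_hom h.le π (fun v a ha => hπA v ⟨a, ha⟩) hxn _
  have h2 : π ⟨x, h.leQ hx⟩ = ⟨x, hx⟩ := hπQ ⟨x, hx⟩
  rw [h1] at h2
  exact (congrArg Subtype.val h2).symm

/-- a power of `g` preserves the conjugacy classes of the elements of a finite subgroup -/
theorem pow_conj {G : Type} [Group G] (N : Subgroup G) [hN : N.Normal] (g : G) (P : Subgroup G)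
    (hPN : P ≤ N) (hPf : Finite P) (hFT : ∀ e : ℕ, e ≠ 0 → FT e N) :
    ∃ k : ℕ, 0 < k ∧ ∀ a ∈ P, ∃ n ∈ N, g ^ k * a * (g ^ k)⁻¹ = n * a * n⁻¹ := by
  classical
  obtain ⟨R, hR⟩ : ∃ R : G → ℕ → Prop, ∀ a d, R a d ↔ ∃ n ∈ N, g ^ d * a * (g ^ d)⁻¹ = n * a * n⁻¹ :=
    ⟨_, fun a d => Iff.rfl⟩
  have hmul : ∀ (a : G) (d t : ℕ), R a d → R a (d * t) := by
    intro a d t hd
    rw [hR] at hd
    obtain ⟨n, hn, hd⟩ := hd
    induction t with
    | zero =>
      rw [hR]
      refine ⟨1, N.one_mem, ?_⟩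
      rw [mul_zero, pow_zero]
    | succ t ih =>
      rw [hR] at ih ⊢
      obtain ⟨m, hm, ih⟩ := ih
      refine ⟨g ^ d * m * (g ^ d)⁻¹ * n, N.mul_mem (hN.conj_mem m hm _) hn, ?_⟩
      have h1 : g ^ (d * (t + 1)) = g ^ d * g ^ (d * t) := by
        rw [← pow_add]
        congr 1
        ring
      have h2 : g ^ (d * (t + 1)) * a * (g ^ (d * (t + 1)))⁻¹ =
          g ^ d * (g ^ (d * t) * a * (g ^ (d * t))⁻¹) * (g ^ d)⁻¹ := by
        rw [h1]
        group
      rw [h2, ih]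
      have h3 : g ^ d * (m * a * m⁻¹) * (g ^ d)⁻¹ =
          (g ^ d * m * (g ^ d)⁻¹) * (g ^ d * a * (g ^ d)⁻¹) * (g ^ d * m * (g ^ d)⁻¹)⁻¹ := by
        group
      rw [h3, hd]
      group
  have hex : ∀ a : P, ∃ d : ℕ, 0 < d ∧ R a d := by
    intro a
    have hcard : Nat.card P ≠ 0 := Nat.card_pos.ne'
    obtain ⟨T, hT, hTN⟩ := hFT (Nat.card P) hcard
    have hpow : (a : G) ^ Nat.card P = 1 := by
      have h1 : a ^ Nat.card P = 1 := pow_card_eq_one'
      exact congrArg Subtype.val h1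
    have hj : ∀ j : ℕ, ∃ c ∈ N, c * (g ^ j * a * (g ^ j)⁻¹) * c⁻¹ ∈ T := by
      intro j
      apply hTN _ (hN.conj_mem _ (hPN a.2) _)
      rw [conj_pow, hpow]
      group
    choose c hcN hcT using hj
    have : Finite T := hT
    obtain ⟨i, j, hij, heq⟩ := Finite.exists_ne_map_eq_of_infinite
      (fun j : ℕ => (⟨_, hcT j⟩ : T))
    have heq' : c i * (g ^ i * a * (g ^ i)⁻¹) * (c i)⁻¹ =
      c j * (g ^ j * a * (g ^ j)⁻¹) * (c j)⁻¹ := congrArg Subtype.val heq
    clear heq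
    wlog hlt : i < j generalizing i j
    · exact this j i hij.symm heq'.symm (lt_of_le_of_ne (not_lt.1 hlt) hij.symm)
    refine ⟨j - i, Nat.sub_pos_of_lt hlt, ?_⟩
    rw [hR]
    obtain ⟨d, hd⟩ : ∃ d, d = j - i := ⟨_, rfl⟩
    have hj : j = d + i := by omega
    rw [← hd]
    refine ⟨(g ^ i)⁻¹ * ((c j)⁻¹ * c i) * (g ^ i)⁻¹⁻¹, hN.conj_mem _
      (N.mul_mem (N.inv_mem (hcN j)) (hcN i)) _, ?_⟩
    have h1 : g ^ j = g ^ i * g ^ d := by rw [hj, ← pow_add, add_comm]
    have h2 : g ^ d * a * (g ^ d)⁻¹ = (g ^ i)⁻¹ * (g ^ j * a * (g ^ j)⁻¹) * g ^ i := by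
      rw [h1]
      group
    have h3 : g ^ j * a * (g ^ j)⁻¹ = (c j)⁻¹ * (c i * (g ^ i * a * (g ^ i)⁻¹) * (c i)⁻¹) * c j := by
      rw [heq']
      group
    rw [h2, h3]
    group
  choose d hd0 hd using hex
  have : Fintype P := Fintype.ofFinite P
  refine ⟨∏ a : P, d a, Finset.prod_pos fun a _ => hd0 a, ?_⟩
  intro a ha
  obtain ⟨t, ht⟩ := Finset.dvd_prod_of_mem d (Finset.mem_univ (⟨a, ha⟩ : P))
  rw [ht]
  exact (hR a _).1 (hmul a _ t (hd ⟨a, ha⟩))

theorem normal_of_gens {G : Type} [Group G] (N : Subgroup G) (g : G)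
    (hG : N ⊔ Subgroup.zpowers g = ⊤) (M : Subgroup G) (hN : ∀ n ∈ N, ∀ y ∈ M, n * y * n⁻¹ ∈ M)
    (hg : ∀ y ∈ M, g * y * g⁻¹ ∈ M) (hg' : ∀ y ∈ M, g⁻¹ * y * g ∈ M) : M.Normal := by
  have h2 : N ⊔ Subgroup.zpowers g ≤ Subgroup.normalizer (M : Set G) := by
    rw [sup_le_iff]
    constructor
    · intro n hn
      rw [Subgroup.mem_normalizer_iff]
      intro y
      refine ⟨fun hy => hN _ hn _ hy, fun hy => ?_⟩
      have h3 := hN n⁻¹ (N.inv_mem hn) _ hy
      have h4 : n⁻¹ * (n * y * n⁻¹) * n⁻¹⁻¹ = y := by group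
      rwa [h4] at h3
    · rw [Subgroup.zpowers_le, Subgroup.mem_normalizer_iff]
      intro y
      refine ⟨fun hy => hg _ hy, fun hy => ?_⟩
      have h3 := hg' _ hy
      have h4 : g⁻¹ * (g * y * g⁻¹) * g = y := by group
      rwa [h4] at h3
  constructor
  intro y hy z
  have h3 : z ∈ Subgroup.normalizer (M : Set G) := h2 (by rw [hG]; exact Subgroup.mem_top z)
  exact (Subgroup.mem_normalizer_iff.1 h3 y).1 hy

theorem sup_top {G : Type} [Group G] (N : Subgroup G) [N.Normal] (x : G) (K : Subgroup G)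
    (hK : K = N ⊔ Subgroup.zpowers x) (hx : x ∈ K) :
    N.subgroupOf K ⊔ Subgroup.zpowers (⟨x, hx⟩ : K) = ⊤ := by
  rw [eq_top_iff]
  rintro z -
  have hz : z.1 ∈ N ⊔ Subgroup.zpowers x := by rw [← hK]; exact z.2
  rw [Pool.Agent.R941.FJ.mem_sup_normal] at hz
  obtain ⟨n, hn, c, hc, hnc⟩ := hz
  obtain ⟨e, rfl⟩ := Subgroup.mem_zpowers_iff.1 hc
  have hnK : n ∈ K := by rw [hK]; exact Subgroup.mem_sup_left hn
  have h1 : z = ⟨n, hnK⟩ * (⟨x, hx⟩ : K) ^ e := by
    apply Subtype.ext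
    rw [← hnc]
    rfl
  rw [h1]
  exact Subgroup.mul_mem _ (Subgroup.mem_sup_left hn)
    (Subgroup.mem_sup_right (Subgroup.zpow_mem _ (Subgroup.mem_zpowers _) _))

theorem main_aux (hF : ClosedF C) : ∀ (n : ℕ) (V : Type) [Finite V], Nat.card V = n →
    ∀ (Λ : SimpleGraph V) (S : Set V) (G : Type) [Group G] (A : V → Subgroup G) (N : Subgroup G)
      [N.Normal], GProd Λ A N → (∀ v ∈ S, Finite (A v)) →
      (∀ v (e : ℕ), e ≠ 0 → FT e (A v)) → Good C (par A Sᶜ) → C (G ⧸ N) → C G := by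
  intro n
  induction n using Nat.strong_induction_on with
  | _ n ih =>
  intro V _ hV Λ S G _ A N hNn h hfin hft hgood hQ
  have hC := hF.base
  by_cases hS : ∃ v, v ∈ S
  swap
  · have hS' : Sᶜ = Set.univ := by
      ext v
      exact ⟨fun _ => trivial, fun _ hv => hS ⟨v, hv⟩⟩
    refine hgood G N ⟨MulEquiv.subgroupCongr ?_⟩ hQ
    rw [hS']
    exact GProd.eq_par_univ h
  obtain ⟨v, hvS⟩ := hS
  have hFTN : ∀ e : ℕ, e ≠ 0 → FT e N := fun e he =>
    gprod_ft e he _ V rfl Λ A N h (fun v => hft v e he)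
  have hcyc : ∀ g : G, C ↥(N ⊔ Subgroup.zpowers g) := by
    intro g
    obtain ⟨k, hk, hkg⟩ := pow_conj N g (A v) (h.le v) (hfin v hvS) hFTN
    refine Run7.h370.RA.C_pow hC.base N g k hk ?_
    obtain ⟨x, hx⟩ : ∃ x, x = g ^ k := ⟨_, rfl⟩
    rw [← hx] at hkg ⊢
    obtain ⟨K, hK⟩ : ∃ K, K = N ⊔ Subgroup.zpowers x := ⟨_, rfl⟩
    rw [← hK]
    have hNK : N ≤ K := by rw [hK]; exact le_sup_left
    have hxK : x ∈ K := by rw [hK]; exact Subgroup.mem_sup_right (Subgroup.mem_zpowers x)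
    have hKn : (N.subgroupOf K).Normal := inferInstance
    have h' := h.sub K hNK
    obtain ⟨M, hM⟩ : ∃ M, M = nc (N.subgroupOf K) (fun _ : Unit => (A v).subgroupOf K) := ⟨_, rfl⟩
    have hAM : ∀ a ∈ (A v).subgroupOf K, a ∈ M := by
      intro a ha
      rw [hM]
      exact le_nc (A := fun _ : Unit => (A v).subgroupOf K) () ha
    have hMN : ∀ z ∈ N.subgroupOf K, ∀ y ∈ M, z * y * z⁻¹ ∈ M := by
      intro z hz y hy
      rw [hM] at hy ⊢
      exact nc_conj hz hy
    have hconj : ∀ z : K, (∀ a ∈ (A v).subgroupOf K, z * a * z⁻¹ ∈ M) →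
        ∀ y ∈ M, z * y * z⁻¹ ∈ M := by
      intro z hz y hy
      have h1 : M ≤ M.comap (MulAut.conj z).toMonoidHom := by
        conv_lhs => rw [hM]
        apply nc_le_of
        · intro n hn y hy
          have h2 : z * (n * y * n⁻¹) * z⁻¹ = (z * n * z⁻¹) * (z * y * z⁻¹) * (z * n * z⁻¹)⁻¹ := by
            group
          show z * (n * y * n⁻¹) * z⁻¹ ∈ M
          rw [h2]
          exact hMN _ (hKn.conj_mem n hn z) _ hy
        · intro _ a ha
          exact hz a ha
      exact h1 hy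
    have hMn : M.Normal := by
      refine normal_of_gens (N.subgroupOf K) ⟨x, hxK⟩ (sup_top N x K hK hxK) M hMN ?_ ?_
      · apply hconj
        intro a ha
        obtain ⟨n, hn, h1⟩ := hkg a.1 ha
        have h2 : (⟨x, hxK⟩ : K) * a * (⟨x, hxK⟩ : K)⁻¹ = ⟨n, hNK hn⟩ * a * ⟨n, hNK hn⟩⁻¹ :=
          Subtype.ext h1
        rw [h2]
        exact hMN _ hn _ (hAM a ha)
      · have h0 : ∀ y ∈ M, (⟨x, hxK⟩ : K)⁻¹ * y * (⟨x, hxK⟩ : K)⁻¹⁻¹ ∈ M := by
          apply hconj
          intro a ha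
          obtain ⟨n, hn, h1⟩ := hkg a.1 ha
          have hm : x⁻¹ * n * x⁻¹⁻¹ ∈ N := hNn.conj_mem n hn x⁻¹
          have h2 : (⟨x, hxK⟩ : K)⁻¹ * a * (⟨x, hxK⟩ : K)⁻¹⁻¹ =
              ⟨x⁻¹ * n * x⁻¹⁻¹, hNK hm⟩⁻¹ * a * (⟨x⁻¹ * n * x⁻¹⁻¹, hNK hm⟩⁻¹)⁻¹ := by
            apply Subtype.ext
            show x⁻¹ * a.1 * x⁻¹⁻¹ = (x⁻¹ * n * x⁻¹⁻¹)⁻¹ * a.1 * ((x⁻¹ * n * x⁻¹⁻¹)⁻¹)⁻¹
            have h3 : a.1 = n⁻¹ * (x * a.1 * x⁻¹) * n := by
              rw [h1]
              group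
            conv_lhs => rw [h3]
            group
          rw [h2]
          exact hMN _ (Subgroup.inv_mem _ hm) _ (hAM a ha)
        intro y hy
        have := h0 y hy
        rwa [inv_inv] at this
    have hMN' : M ≤ N.subgroupOf K := by
      rw [hM]
      exact nc_le (fun _ => h'.le v)
    have hMW : M = nc (N.subgroupOf K) (fun u : {w // w ∉ ({v}ᶜ : Set V)} => (A u).subgroupOf K) := by
      rw [hM]
      apply le_antisymm
      · apply nc_le_of (fun n hn y hy => nc_conj hn hy)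
        intro _
        exact le_nc (A := fun u : {w // w ∉ ({v}ᶜ : Set V)} => (A u).subgroupOf K)
          ⟨v, fun h => h rfl⟩
      · apply nc_le_of (fun n hn y hy => nc_conj hn hy)
        rintro ⟨w, hw⟩
        have hwv : w = v := by
          by_contra hc
          exact hw hc
        subst hwv
        exact le_nc (A := fun _ : Unit => (A w).subgroupOf K) ()
    have hrel := GProd.relv h' v
    have hinf : ∀ y ∈ par (fun w => (A w).subgroupOf K) {v}ᶜ, QuotientGroup.mk' M y = 1 →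
        y = 1 := by
      intro y hy h1
      have h2 : y ∈ M := (QuotientGroup.eq_one_iff y).1 h1
      rw [hM] at h2
      exact inf_nc hrel hy h2
    have hsubK : ∀ H : Subgroup G, H ≤ K → Nonempty (H ≃* H.subgroupOf K) := fun H hH =>
      ⟨(Subgroup.subgroupOfEquivOfLe hH).symm⟩
    have hquot : C (K ⧸ M) := by
      have h1 := h'.quot ({v}ᶜ) M hMW
      have hcard : Nat.card ({v}ᶜ : Set V) < n := by
        rw [← hV]
        exact Finite.card_subtype_lt (p := fun w => w ∈ ({v}ᶜ : Set V)) (x := v) (fun h => h rfl)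
      have hn2 : ((N.subgroupOf K).map (QuotientGroup.mk' M)).Normal :=
        Subgroup.Normal.map hKn _ (QuotientGroup.mk'_surjective _)
      have heq : ∀ w : ({v}ᶜ : Set V), Nonempty ((A w) ≃*
          ((A w).subgroupOf K).map (QuotientGroup.mk' M)) := by
        intro w
        obtain ⟨e1⟩ := hsubK (A w) ((h.le w).trans hNK)
        obtain ⟨e2⟩ := map_equiv (QuotientGroup.mk' M) ((A w).subgroupOf K)
          (fun y hy => hinf y (le_par (A := fun w => (A w).subgroupOf K) w.2 hy))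
        exact ⟨e1.trans e2⟩
      refine ih _ hcard ({v}ᶜ : Set V) rfl _ {w | w.1 ∈ S} (K ⧸ M) _ _ h1 ?_ ?_ ?_ ?_
      · intro w hw
        obtain ⟨e⟩ := heq w
        have := hfin w.1 hw
        exact Finite.of_equiv _ e.toEquiv
      · intro w e he
        obtain ⟨f⟩ := heq w
        exact (hft w e he).equiv f
      · -- the other vertices
        have h2 : par (fun w : ({v}ᶜ : Set V) => ((A w).subgroupOf K).map (QuotientGroup.mk' M))
            {w | w.1 ∈ S}ᶜ = ((par A Sᶜ).subgroupOf K).map (QuotientGroup.mk' M) := by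
          apply le_antisymm
          · apply par_le
            intro w hw
            apply Subgroup.map_mono
            intro a ha
            exact le_par (A := A) (S := Sᶜ) hw ha
          · rw [Subgroup.map_le_iff_le_comap]
            have h3 : par A Sᶜ ≤ ((par (fun w : ({v}ᶜ : Set V) =>
                ((A w).subgroupOf K).map (QuotientGroup.mk' M)) {w | w.1 ∈ S}ᶜ).comap
                (QuotientGroup.mk' M)).map K.subtype := by
              apply par_le
              intro w hw a ha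
              have haK : a ∈ K := hNK (h.le w ha)
              have hwv : w ∈ ({v}ᶜ : Set V) := by
                rintro rfl
                exact hw hvS
              refine ⟨⟨a, haK⟩, ?_, rfl⟩
              exact le_par (A := fun w : ({v}ᶜ : Set V) =>
                ((A w).subgroupOf K).map (QuotientGroup.mk' M)) (S := {w | w.1 ∈ S}ᶜ)
                (v := ⟨w, hwv⟩) hw ⟨⟨a, haK⟩, ha, rfl⟩
            intro y hy
            obtain ⟨z, hz, hzy⟩ := h3 hy
            have : z = y := Subtype.ext hzy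
            rwa [this] at hz
        rw [h2]
        obtain ⟨e1⟩ := hsubK (par A Sᶜ) ((GProd.par_le h _).trans hNK)
        obtain ⟨e2⟩ := map_equiv (QuotientGroup.mk' M) ((par A Sᶜ).subgroupOf K) (fun y hy => by
          apply hinf y
          have h3 : par A Sᶜ ≤ (par (fun w => (A w).subgroupOf K) {v}ᶜ).map K.subtype := by
            apply par_le
            intro w hw a ha
            have hwv : w ∈ ({v}ᶜ : Set V) := by
              rintro rfl
              exact hw hvS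
            exact ⟨⟨a, hNK (h.le w ha)⟩, le_par (A := fun w => (A w).subgroupOf K) hwv ha, rfl⟩
          obtain ⟨z, hz, hzy⟩ := h3 hy
          have : z = y := Subtype.ext hzy
          rwa [this] at hz)
        exact hgood.equiv (e1.trans e2)
      · have h5 : C (K ⧸ N.subgroupOf K) := by
          refine hC.base.of_injective _ (G ⧸ N) (QuotientGroup.map (N.subgroupOf K) N K.subtype
            (fun x hx => hx)) ?_ hQ
          rw [injective_iff_map_eq_one]
          intro y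
          induction y using QuotientGroup.induction_on with
          | H z =>
            intro hz
            have h1 : z.1 ∈ N := (QuotientGroup.eq_one_iff _).1 hz
            exact (QuotientGroup.eq_one_iff _).2 h1
        exact hC.base.of_injective _ _
          (QuotientGroup.quotientQuotientEquivQuotient M (N.subgroupOf K) hMN').toMonoidHom
          (QuotientGroup.quotientQuotientEquivQuotient M (N.subgroupOf K) hMN').injective h5
    have hfinK : Finite ↥((A v).subgroupOf K) := by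
      obtain ⟨e⟩ := hsubK (A v) ((h.le v).trans hNK)
      have := hfin v hvS
      exact Finite.of_equiv _ e.toEquiv
    subst hM
    exact kfin hF hrel hfinK hquot
  refine Pool.Agent.Y529.FJ.t_ext C hC G N ?_ hQ fun g _ => hcyc g
  exact C_le hC.base le_sup_left (hcyc 1)

end Run7.h79.FJ
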