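import Pool.Agent.Q30.FJ.GPk

/-!
# Parabolic subgroups of graph products
-/

set_option autoImplicit false

namespace Run7.h79.FJ

open Q30.FJ

variable {G : Type} [Group G] {V : Type} {Λ : SimpleGraph V} {A : V → Subgroup G}
  {N : Subgroup G}

/-- the subgroup of a set of vertices -/
def par (A : V → Subgroup G) (S : Set V) : Subgroup G := ⨆ w : S, A w

theorem le_par {S : Set V} {v : V} (hv : v ∈ S) : A v ≤ par A S := le_iSup (fun w : S => A w) ⟨v, hv⟩

theorem par_le {S : Set V} {M : Subgroup G} (h : ∀ v ∈ S, A v ≤ M) : par A S ≤ M :=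
  iSup_le fun w => h w.1 w.2

theorem par_mono {S T : Set V} (h : S ⊆ T) : par A S ≤ par A T := par_le fun _ hv => le_par (h hv)

theorem GProd.par_le (h : GProd Λ A N) (S : Set V) : par A S ≤ N :=
  Run7.h79.FJ.par_le fun v _ => h.le v

theorem GProd.eq_par_univ (h : GProd Λ A N) : N = par A Set.univ :=
  le_antisymm (h.gen _ fun v => le_par (Set.mem_univ v)) (GProd.par_le h _)

/-- parabolic subgroups are graph products -/
theorem GProd.par (h : GProd Λ A N) (S : Set V) :
    GProd (Λ.induce S) (fun w : S => A w) (par A S) where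
  le := fun w => le_par w.2
  gen := fun M hM => Run7.h79.FJ.par_le fun v hv => hM ⟨v, hv⟩
  comm := fun v w hvw => h.comm v w hvw
  univ := by
    classical
    intro H _ f hf
    let f' : ∀ v, A v →* H := fun v => if hv : v ∈ S then f ⟨v, hv⟩ else 1
    have hf1 : ∀ (v : S) (a : A v.1), f' v a = f v a := by
      intro v a
      have : f' v.1 = f v := dif_pos v.2
      rw [this]
    have hf2 : ∀ v, v ∉ S → ∀ a : A v, f' v a = 1 := by
      intro v hv a
      have : f' v = 1 := dif_neg hv
      rw [this]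
      rfl
    obtain ⟨φ, hφ⟩ := h.univ H f' (by
      intro v w hvw a b
      by_cases hv : v ∈ S
      · by_cases hw : w ∈ S
        · have e1 : f' v a = _ := hf1 ⟨v, hv⟩ a
          have e2 : f' w b = _ := hf1 ⟨w, hw⟩ b
          rw [e1, e2]
          exact hf ⟨v, hv⟩ ⟨w, hw⟩ hvw _ _
        · rw [hf2 w hw b, mul_one, one_mul]
      · rw [hf2 v hv a, mul_one, one_mul])
    refine ⟨φ.comp (Subgroup.inclusion (GProd.par_le h S)), ?_⟩
    intro v a
    exact (hφ v.1 a).trans (hf1 v a)

/-- splitting off a vertex -/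
theorem GProd.relv (h : GProd Λ A N) (v : V) :
    Rel (⊥ : SimpleGraph Unit) (fun _ : Unit => A v) (Run7.h79.FJ.par A {v}ᶜ)
      (fun _ : Unit => Run7.h79.FJ.par A {w | Λ.Adj v w}) N := by
  classical
  have hne : ∀ w, Λ.Adj v w → w ∈ ({v}ᶜ : Set V) := by
    rintro w hw rfl
    exact hw.ne rfl
  refine ⟨fun _ => h.le v, GProd.par_le h _, fun _ => par_mono hne, ?_, ?_, ?_, ?_⟩
  · intro M hM hQM
    apply h.gen
    intro w
    by_cases hw : w = v
    · subst hw
      exact hM ()
    · exact (le_par hw).trans hQM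
  · exact fun u w huw => huw.elim
  · intro _ a ha b hb
    have h1 : Run7.h79.FJ.par A {w | Λ.Adj v w} ≤ Subgroup.centralizer {a} := by
      apply Run7.h79.FJ.par_le
      intro w hw b hb
      rw [Subgroup.mem_centralizer_iff]
      intro y hy
      rw [Set.mem_singleton_iff.1 hy]
      exact h.comm v w hw a ha b hb
    exact Subgroup.mem_centralizer_iff.1 (h1 hb) a rfl
  · intro H _ f k _ hfk
    let f' : ∀ w, A w →* H := fun w =>
      if hw : w = v then (f ()).comp (Subgroup.inclusion (le_of_eq (congrArg A hw)))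
      else k.comp (Subgroup.inclusion (le_par hw))
    have hf1 : ∀ (a : A v), f' v a = f () a := by
      intro a
      have : f' v = (f ()).comp (Subgroup.inclusion (le_of_eq (congrArg A rfl))) := dif_pos rfl
      rw [this]
      rfl
    have hf2 : ∀ (w : V) (hw : w ∈ ({v}ᶜ : Set V)) (a : A w), f' w a = k ⟨a, le_par hw a.2⟩ := by
      intro w hw a
      have : f' w = k.comp (Subgroup.inclusion (le_par hw)) := dif_neg hw
      rw [this]
      rfl
    obtain ⟨φ, hφ⟩ := h.univ H f' (by
      intro u w huw a b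
      by_cases hu : u = v
      · subst hu
        have hw := hne w huw
        rw [hf1 a, hf2 w hw b]
        exact hfk () a ⟨b, le_par huw b.2⟩
      · by_cases hw : w = v
        · subst hw
          have hu' := hne u huw.symm
          rw [hf1 b, hf2 u hu' a]
          exact (hfk () b ⟨a, le_par (show Λ.Adj w u from huw.symm) a.2⟩).symm
        · rw [hf2 u hu a, hf2 w hw b, ← map_mul, ← map_mul]
          congr 1
          exact Subtype.ext (h.comm u w huw a a.2 b b.2))
    refine ⟨φ, fun _ a => (hφ v a).trans (hf1 a), ?_⟩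
    have h1 : Run7.h79.FJ.par A {v}ᶜ ≤ ((φ.comp (Subgroup.inclusion (GProd.par_le h _))).eqLocus k).map
        (Subgroup.subtype (Run7.h79.FJ.par A {v}ᶜ)) := by
      apply Run7.h79.FJ.par_le
      intro w hw a ha
      refine ⟨⟨a, le_par hw ha⟩, ?_, rfl⟩
      show φ ⟨a, _⟩ = k ⟨a, _⟩
      exact (hφ w ⟨a, ha⟩).trans (hf2 w hw ⟨a, ha⟩)
    intro x
    obtain ⟨y, hy, hyx⟩ := h1 x.2
    have h2 : y = x := Subtype.ext hyx
    rw [← h2]
    exact hy

end Run7.h79.FJ
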