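import Pool.Agent.Run7.h79.FJ.Par
import Pool.Agent.Y43.CH.Syll

/-!
# Elements of finite order in graph products
-/

set_option autoImplicit false

namespace Run7.h79.FJ

open Q30.FJ Monoid

/-- The two factors as a family. -/
def Fam (A B : Type) : Bool → Type
  | true => A
  | false => B

instance famGroup (A B : Type) [Group A] [Group B] : ∀ b, Group (Fam A B b)
  | true => (inferInstance : Group A)
  | false => (inferInstance : Group B)

/-- The two embeddings as a family. -/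
def famHom {A B D : Type} [Group A] [Group B] [Group D] (φ : D →* A) (ψ : D →* B) :
    ∀ b, D →* Fam A B b
  | true => φ
  | false => ψ

variable {G : Type} [Group G]

/-- finitely many conjugacy classes of solutions of `x ^ n = 1` -/
def FT (n : ℕ) (H : Subgroup G) : Prop :=
  ∃ T : Set G, T.Finite ∧ ∀ x ∈ H, x ^ n = 1 → ∃ c ∈ H, c * x * c⁻¹ ∈ T

theorem FT.of_finite (n : ℕ) (H : Subgroup G) (h : Finite H) : FT n H :=
  ⟨H, Set.toFinite _, fun x hx _ => ⟨1, H.one_mem, by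
    rw [one_mul, inv_one, mul_one]; exact hx⟩⟩

theorem Rel.tor {A₀ Q L₀ N : Subgroup G}
    (h : Rel (⊥ : SimpleGraph Unit) (fun _ => A₀) Q (fun _ => L₀) N) (n : ℕ) (hn : n ≠ 0)
    {x : G} (hx : x ∈ N) (hxn : x ^ n = 1) :
    ∃ c ∈ N, c * x * c⁻¹ ∈ Q ∨ ∃ a ∈ A₀, ∃ l ∈ L₀, c * x * c⁻¹ = a * l := by
  have hLQ : L₀ ≤ Q := h.leL ()
  have hcom : ∀ (a : A₀) (l : L₀), (a : G) * l = l * a := fun a l => h.commL () a a.2 l l.2
  let φ : ∀ b, L₀ →* Fam Q (A₀ × L₀) b := famHom (Subgroup.inclusion hLQ) (MonoidHom.inr A₀ L₀)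
  have hφ : ∀ b, Function.Injective (φ b) := by
    intro b
    cases b
    · exact fun a b hab => congrArg Prod.snd hab
    · exact Subgroup.inclusion_injective hLQ
  let i : Q →* PushoutI φ := PushoutI.of (φ := φ) true
  let j : A₀ × L₀ →* PushoutI φ := PushoutI.of (φ := φ) false
  have hij : ∀ l : L₀, i (Subgroup.inclusion hLQ l) = j (1, l) := by
    intro l
    have h1 := PushoutI.of_apply_eq_base φ true l
    have h2 := PushoutI.of_apply_eq_base φ false l
    exact h1.trans h2.symm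
  obtain ⟨Ψ, hΨA, hΨQ⟩ := h.univ (PushoutI φ) (fun _ => j.comp (MonoidHom.inl A₀ L₀)) i
    (fun v w hvw => hvw.elim) (by
      intro _ a b
      have h1 : i ⟨b, h.leL () b.2⟩ = j (1, b) := hij b
      rw [h1]
      show j (a, 1) * j (1, b) = j (1, b) * j (a, 1)
      rw [← map_mul, ← map_mul]
      congr 1
      exact Prod.ext ((mul_one _).trans (one_mul _).symm) ((one_mul _).trans (mul_one _).symm))
  let m : A₀ × L₀ →* N := MonoidHom.mk' (fun p => ⟨p.1 * p.2, N.mul_mem (h.le () p.1.2)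
    (h.leQ (hLQ p.2.2))⟩) (by
      intro p q
      apply Subtype.ext
      show (p.1 * q.1 : G) * (p.2 * q.2) = p.1 * p.2 * (q.1 * q.2)
      have h1 := hcom q.1 p.2
      rw [mul_assoc (p.1 : G), mul_assoc (p.1 : G), ← mul_assoc (q.1 : G), h1]
      group)
  let F : ∀ b, Fam Q (A₀ × L₀) b →* N := fun b => match b with
    | true => Subgroup.inclusion h.leQ
    | false => m
  have hF : ∀ b, (F b).comp (φ b) = Subgroup.inclusion (hLQ.trans h.leQ) := by
    intro b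
    cases b
    · ext l
      show (1 : G) * l = l
      rw [one_mul]
    · rfl
  let Φ : PushoutI φ →* N := PushoutI.lift F (Subgroup.inclusion (hLQ.trans h.leQ)) hF
  have hΦi : ∀ q : Q, Φ (i q) = ⟨q, h.leQ q.2⟩ := fun q => PushoutI.lift_of F _ hF (i := true) q
  have hΦj : ∀ p : A₀ × L₀, Φ (j p) = m p := fun p => PushoutI.lift_of F _ hF (i := false) p
  have hid : ∀ y : N, Φ (Ψ y) = y := by
    have h1 : N ≤ ((Φ.comp Ψ).eqLocus (MonoidHom.id N)).map N.subtype := by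
      apply h.gen
      · intro u a ha
        refine ⟨⟨a, h.le () ha⟩, ?_, rfl⟩
        show Φ (Ψ ⟨a, _⟩) = ⟨a, _⟩
        rw [hΨA () ⟨a, ha⟩]
        show Φ (j (⟨a, ha⟩, 1)) = _
        rw [hΦj]
        apply Subtype.ext
        show a * 1 = a
        rw [mul_one]
      · intro q hq
        refine ⟨⟨q, h.leQ hq⟩, ?_, rfl⟩
        show Φ (Ψ ⟨q, _⟩) = ⟨q, _⟩
        rw [hΨQ ⟨q, hq⟩, hΦi]
    intro y
    obtain ⟨z, hz, hzy⟩ := h1 y.2
    have h2 : z = y := Subtype.ext hzy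
    rw [← h2]
    exact hz
  obtain ⟨c, b, z, hcz, -⟩ := Pool.Agent.Y43.CH.amalg_torsion hφ (Ψ ⟨x, hx⟩) n hn (by
    rw [← map_pow]
    have : (⟨x, hx⟩ : N) ^ n = 1 := Subtype.ext hxn
    rw [this, map_one])
  have h3 := hid ⟨x, hx⟩
  rw [hcz, map_mul, map_mul, map_inv] at h3
  have h4 : ((Φ c : N) : G)⁻¹ * x * ((Φ c : N) : G)⁻¹⁻¹ = (Φ (PushoutI.of (φ := φ) b z) : N) := by
    have h5 := congrArg Subtype.val h3
    have h6 : (Φ c : G) * (Φ (PushoutI.of (φ := φ) b z) : N) * (Φ c : G)⁻¹ = x := h5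
    rw [← h6]
    group
  refine ⟨((Φ c : N) : G)⁻¹, N.inv_mem (Φ c).2, ?_⟩
  rw [h4]
  cases b
  · right
    have h5 : Φ (PushoutI.of (φ := φ) false z) = m z := hΦj z
    rw [h5]
    exact ⟨z.1, z.1.2, z.2, z.2.2, rfl⟩
  · left
    have h5 : Φ (PushoutI.of (φ := φ) true z) = ⟨z.1, h.leQ z.2⟩ := hΦi z
    rw [h5]
    exact z.2

theorem Rel.ft {A₀ Q L₀ N : Subgroup G}
    (h : Rel (⊥ : SimpleGraph Unit) (fun _ => A₀) Q (fun _ => L₀) N) (n : ℕ) (hn : n ≠ 0)
    (hA : FT n A₀) (hQ : FT n Q) (hL : FT n L₀) (hdisj : ∀ a ∈ A₀, a ∈ L₀ → a = 1) : FT n N := by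
  obtain ⟨TA, hTA, hA⟩ := hA
  obtain ⟨TQ, hTQ, hQ⟩ := hQ
  obtain ⟨TL, hTL, hL⟩ := hL
  have hcom : ∀ a ∈ A₀, ∀ l ∈ L₀, a * l = l * a := fun a ha l hl => h.commL () a ha l hl
  refine ⟨TQ ∪ Set.image2 (fun a l => a * l) TA TL, hTQ.union (Set.Finite.image2 _ hTA hTL), ?_⟩
  intro x hx hxn
  obtain ⟨c, hc, h1 | ⟨a, ha, l, hl, h1⟩⟩ := Rel.tor h n hn hx hxn
  · obtain ⟨d, hd, h2⟩ := hQ _ h1 (by rw [conj_pow, hxn]; group)
    refine ⟨d * c, N.mul_mem (h.leQ hd) hc, Or.inl ?_⟩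
    have h3 : d * c * x * (d * c)⁻¹ = d * (c * x * c⁻¹) * d⁻¹ := by group
    rw [h3]
    exact h2
  · have h2 : (a * l) ^ n = 1 := by rw [← h1, conj_pow, hxn]; group
    have h3 : a ^ n * l ^ n = 1 := by
      rw [← (show Commute a l from hcom a ha l hl).mul_pow]
      exact h2
    have h4 : a ^ n = (l ^ n)⁻¹ := eq_inv_of_mul_eq_one_left h3
    have h5 : a ^ n = 1 := hdisj _ (A₀.pow_mem ha n) (by
      rw [h4]; exact L₀.inv_mem (L₀.pow_mem hl n))
    have h6 : l ^ n = 1 := by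
      rw [h5, one_mul] at h3
      exact h3
    obtain ⟨d, hd, h7⟩ := hA a ha h5
    obtain ⟨e, he, h8⟩ := hL l hl h6
    refine ⟨d * e * c, N.mul_mem (N.mul_mem (h.le () hd) (h.leQ (h.leL () he))) hc, Or.inr ?_⟩
    refine ⟨_, h7, _, h8, ?_⟩
    have h9 : d * e * c * x * (d * e * c)⁻¹ = d * e * (c * x * c⁻¹) * (d * e)⁻¹ := by group
    rw [h9, h1]
    have e1 := hcom a ha e he
    have e2 := hcom d hd e he
    have e3 := hcom d hd l hl
    show d * a * d⁻¹ * (e * l * e⁻¹) = d * e * (a * l) * (d * e)⁻¹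
    have c1 : Commute d e := e2
    have c2 : Commute a e := e1
    have c3 : Commute d l := e3
    have c4 : Commute d (e * l * e⁻¹) := (c1.mul_right c3).mul_right c1.inv_right
    have e4 : d * a * d⁻¹ * (e * l * e⁻¹) = d * a * (e * l * e⁻¹) * d⁻¹ := by
      rw [mul_assoc (d * a), (c4.inv_left).eq, ← mul_assoc]
    rw [e4, mul_inv_rev]
    have e5 : d * a * (e * l * e⁻¹) * d⁻¹ = d * (a * e) * l * e⁻¹ * d⁻¹ := by group
    rw [e5, c2.eq]
    group

/-- **finitely many conjugacy classes of elements of bounded order in graph products** -/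
theorem gprod_ft (n : ℕ) (hn : n ≠ 0) : ∀ (m : ℕ) (V : Type) [Finite V], Nat.card V = m →
    ∀ (Λ : SimpleGraph V) (A : V → Subgroup G) (N : Subgroup G), GProd Λ A N →
      (∀ v, FT n (A v)) → FT n N := by
  intro m
  induction m using Nat.strong_induction_on with
  | _ m ih =>
  intro V _ hV Λ A N h hA
  rcases isEmpty_or_nonempty V with hemp | ⟨⟨v⟩⟩
  · have hN : N ≤ ⊥ := h.gen ⊥ (fun v => (hemp.false v).elim)
    refine ⟨{1}, Set.finite_singleton _, fun x hx _ => ⟨1, N.one_mem, ?_⟩⟩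
    have : x = 1 := hN hx
    rw [this]
    simp
  have hsub : ∀ S : Set V, v ∉ S → FT n (par A S) := by
    intro S hS
    have hcard : Nat.card S < m := by
      rw [← hV]
      exact Finite.card_subtype_lt (p := fun v => v ∈ S) (x := v) hS
    exact ih _ hcard S rfl _ _ _ (GProd.par h S) (fun w => hA w)
  refine Rel.ft (GProd.relv h v) n hn (hA v) (hsub _ (fun h => h rfl))
    (hsub _ (fun h => Λ.irrefl h)) ?_
  intro a ha hal
  obtain ⟨p, hp⟩ := h.retr
  have h1 : par A {w | Λ.Adj v w} ≤ (p v).ker.map N.subtype := by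
    apply par_le
    intro w hw b hb
    exact ⟨⟨b, h.le w hb⟩, hp.other v w ⟨b, hb⟩ (Λ.ne_of_adj hw), rfl⟩
  obtain ⟨z, hz, hza⟩ := h1 hal
  have h2 := hp.same v ⟨a, ha⟩
  have h3 : (⟨a, h.le v ha⟩ : N) = z := Subtype.ext hza.symm
  have h4 : p v z = ⟨a, ha⟩ := by
    rw [← h3]
    exact h2
  have h5 : p v z = 1 := hz
  rw [h5] at h4
  exact (congrArg Subtype.val h4).symm

end Run7.h79.FJ
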