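import Pool.Agent.Run7.h79.FJ.Main
import Pool.Agent.Helper89.Count

/-!
# Subgroups of finite index, and graph products of finite and infinite cyclic groups
-/

set_option autoImplicit false

namespace Run7.h79.FJ

open Q30.FJ Pool.Agent.Y110.FJ
open Pool.Agent.R941.FJ (C_equiv C_le C_cyc)

variable {C : ∀ (G : Type) [Group G], Prop}

theorem sup_top' {G : Type} [Group G] (H : Subgroup G) (x : G) (L : Subgroup G)
    (hL : L = H ⊔ Subgroup.zpowers x) (hx : x ∈ L) :
    H.subgroupOf L ⊔ Subgroup.zpowers (⟨x, hx⟩ : L) = ⊤ := by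
  rw [eq_top_iff]
  obtain ⟨P, hP⟩ : ∃ P, P = H.subgroupOf L ⊔ Subgroup.zpowers (⟨x, hx⟩ : L) := ⟨_, rfl⟩
  rw [← hP]
  have hHL : H ≤ L := by rw [hL]; exact le_sup_left
  have h1 : L ≤ P.map L.subtype := by
    conv_lhs => rw [hL]
    rw [sup_le_iff, Subgroup.zpowers_le]
    constructor
    · intro y hy
      refine ⟨⟨y, hHL hy⟩, ?_, rfl⟩
      rw [hP]
      exact Subgroup.mem_sup_left hy
    · refine ⟨⟨x, hx⟩, ?_, rfl⟩
      rw [hP]
      exact Subgroup.mem_sup_right (Subgroup.mem_zpowers _)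
  rintro z -
  obtain ⟨y, hy, hyz⟩ := h1 z.2
  have : y = z := Subtype.ext hyz
  rwa [this] at hy

theorem C_cyclic_quot (hC : Pool.Agent.Y462.SS.Closed C) {L : Type} [Group L] (H : Subgroup L)
    [H.Normal] (x : L) (hx : H ⊔ Subgroup.zpowers x = ⊤) : C (L ⧸ H) := by
  have h1 : Subgroup.zpowers (QuotientGroup.mk' H x) = ⊤ := by
    have h2 : (H ⊔ Subgroup.zpowers x).map (QuotientGroup.mk' H) =
        Subgroup.zpowers (QuotientGroup.mk' H x) := by
      rw [Subgroup.map_sup, MonoidHom.map_zpowers, QuotientGroup.map_mk'_self, bot_sup_eq]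
    rw [← h2, hx]
    exact Subgroup.map_top_of_surjective _ (QuotientGroup.mk'_surjective H)
  have h3 := C_cyc hC (QuotientGroup.mk' H x)
  rw [h1] at h3
  exact C_equiv hC Subgroup.topEquiv.symm h3

/-- **finite index** -/
theorem good_virt (hC : ClosedE C) {K : Type} [Group K] (hfg : Group.FG K) (H : Subgroup K)
    (hH : H.index ≠ 0) (h : Good C H) : Good C K := by
  intro G _ N hNn ⟨e⟩ hQ
  have hcyc : ∀ g : G, C ↥(N ⊔ Subgroup.zpowers g) := by
    intro g
    obtain ⟨H1, hH1⟩ : ∃ H1 : Subgroup N, H1 = H.comap e.toMonoidHom := ⟨_, rfl⟩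
    have hidx : H1.index ≠ 0 := by
      rw [hH1, Subgroup.index_comap_of_surjective _ e.surjective]
      exact hH
    have hNfg : Group.FG N := Group.fg_of_surjective (f := e.symm.toMonoidHom) e.symm.surjective
    obtain ⟨S, hS⟩ := hNfg.out
    have hfin := (Pool.Agent.Helper89.Count.index_card_le S hS H1.index hidx).1
    obtain ⟨σ, hσ⟩ : ∃ σ : MulAut N, σ = MulAut.conjNormal g := ⟨_, rfl⟩
    have hix : ∀ j : ℕ, (H1.comap (σ ^ j).toMonoidHom).index = H1.index := fun j =>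
      Subgroup.index_comap_of_surjective _ (σ ^ j).surjective
    obtain ⟨i, j, hij, heq⟩ := Finite.exists_ne_map_eq_of_infinite
      (fun j : ℕ => (⟨_, hix j⟩ : {L : Subgroup N // L.index = H1.index}))
    have heq' : H1.comap (σ ^ i).toMonoidHom = H1.comap (σ ^ j).toMonoidHom :=
      congrArg Subtype.val heq
    clear heq
    wlog hlt : i < j generalizing i j
    · exact this j i hij.symm heq'.symm (lt_of_le_of_ne (not_lt.1 hlt) hij.symm)
    obtain ⟨d, hd⟩ : ∃ d, d = j - i := ⟨_, rfl⟩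
    have hd0 : 0 < d := by omega
    have hinv : ∀ y : N, y ∈ H1 ↔ (σ ^ d) y ∈ H1 := by
      intro y
      obtain ⟨x, rfl⟩ := (σ ^ i).surjective y
      have h1 : x ∈ H1.comap (σ ^ i).toMonoidHom ↔ x ∈ H1.comap (σ ^ j).toMonoidHom := by
        rw [heq']
      have h2 : (σ ^ j) x = (σ ^ d) ((σ ^ i) x) := by
        have h3 : j = d + i := by omega
        rw [h3, pow_add]
        rfl
      have h4 : (σ ^ i) x ∈ H1 ↔ (σ ^ j) x ∈ H1 := h1
      rw [h4, h2]
    have hval : ∀ y : N, (((σ ^ d) y : N) : G) = g ^ d * y * (g ^ d)⁻¹ := by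
      intro y
      rw [hσ, ← map_pow]
      rfl
    obtain ⟨x, hx⟩ : ∃ x, x = g ^ d := ⟨_, rfl⟩
    refine Run7.h370.RA.C_pow hC.base N g d hd0 ?_
    rw [← hx] at hval ⊢
    obtain ⟨H', hH'⟩ : ∃ H', H' = H1.map N.subtype := ⟨_, rfl⟩
    have hH'N : H' ≤ N := by
      rw [hH']
      rintro _ ⟨y, _, rfl⟩
      exact y.2
    have hxH : ∀ y, y ∈ H' → x * y * x⁻¹ ∈ H' := by
      rw [hH']
      rintro _ ⟨y, hy, rfl⟩
      exact ⟨(σ ^ d) y, (hinv y).1 hy, hval y⟩
    have hxH' : ∀ y, y ∈ H' → x⁻¹ * y * x ∈ H' := by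
      rw [hH']
      rintro _ ⟨y, hy, rfl⟩
      obtain ⟨z, hz⟩ := (σ ^ d).surjective y
      refine ⟨z, (hinv z).2 (by rw [hz]; exact hy), ?_⟩
      have h1 := hval z
      rw [hz] at h1
      show (z : G) = x⁻¹ * (y : G) * x
      rw [h1]
      group
    obtain ⟨L, hL⟩ : ∃ L, L = H' ⊔ Subgroup.zpowers x := ⟨_, rfl⟩
    have hxL : x ∈ L := by rw [hL]; exact Subgroup.mem_sup_right (Subgroup.mem_zpowers x)
    have hH'L : H' ≤ L := by rw [hL]; exact le_sup_left
    have htop := sup_top' H' x L hL hxL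
    have hnorm : (H'.subgroupOf L).Normal := by
      refine normal_of_gens (H'.subgroupOf L) ⟨x, hxL⟩ htop _ ?_ ?_ ?_
      · intro n hn y hy
        exact Subgroup.mul_mem _ (Subgroup.mul_mem _ hn hy) (Subgroup.inv_mem _ hn)
      · intro y hy
        exact hxH y.1 hy
      · intro y hy
        exact hxH' y.1 hy
    have hCL : C L := by
      refine h L (H'.subgroupOf L) ?_ (C_cyclic_quot hC.base _ _ htop)
      have e1 : H'.subgroupOf L ≃* H' := Subgroup.subgroupOfEquivOfLe hH'L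
      obtain ⟨e2⟩ : Nonempty (H1 ≃* H') := by
        rw [hH']
        exact map_equiv N.subtype H1 (fun y _ hy => Subtype.ext hy)
      obtain ⟨e3⟩ : Nonempty (H ≃* H1) := by
        rw [hH1]
        refine ⟨MulEquiv.ofBijective (MonoidHom.mk' (fun y : H => (⟨e.symm y, by
          show e (e.symm y) ∈ H
          rw [e.apply_symm_apply]
          exact y.2⟩ : H.comap e.toMonoidHom)) (fun a b => Subtype.ext (map_mul e.symm _ _))) ⟨?_, ?_⟩⟩
        · intro a b hab
          exact Subtype.ext (e.symm.injective (congrArg Subtype.val hab))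
        · rintro ⟨y, hy⟩
          exact ⟨⟨e y, hy⟩, Subtype.ext (e.symm_apply_apply y)⟩
      exact ⟨e1.trans (e2.symm.trans e3.symm)⟩
    -- `L` has finite index in `N ⊔ zpowers x`
    obtain ⟨P, hP⟩ : ∃ P, P = N ⊔ Subgroup.zpowers x := ⟨_, rfl⟩
    rw [← hP]
    have hNP : N ≤ P := by rw [hP]; exact le_sup_left
    have hLP : L ≤ P := by
      rw [hL, hP]
      exact sup_le_sup_right hH'N _
    have hfinq : Finite (N ⧸ H1) := by
      have : H1.FiniteIndex := ⟨hidx⟩
      infer_instance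
    have hfinP : Finite (P ⧸ L.subgroupOf P) := by
      apply Finite.of_surjective (fun c : N ⧸ H1 => (QuotientGroup.mk (⟨(c.out : N), hNP c.out.2⟩ : P) :
        P ⧸ L.subgroupOf P))
      intro y
      induction y using QuotientGroup.induction_on with
      | H z =>
        have hz : z.1 ∈ N ⊔ Subgroup.zpowers x := by rw [← hP]; exact z.2
        rw [Pool.Agent.R941.FJ.mem_sup_normal] at hz
        obtain ⟨n, hn, c, hc, hnc⟩ := hz
        refine ⟨QuotientGroup.mk (⟨n, hn⟩ : N), ?_⟩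
        apply QuotientGroup.eq.2
        show (((QuotientGroup.mk (⟨n, hn⟩ : N) : N ⧸ H1).out : N) : G)⁻¹ * z.1 ∈ L
        have h1 : ((QuotientGroup.mk (⟨n, hn⟩ : N) : N ⧸ H1).out)⁻¹ * ⟨n, hn⟩ ∈ H1 :=
          QuotientGroup.eq.1 (QuotientGroup.out_eq' _)
        have h2 : (((QuotientGroup.mk (⟨n, hn⟩ : N) : N ⧸ H1).out : N) : G)⁻¹ * n ∈ H' := by
          rw [hH']
          exact ⟨_, h1, rfl⟩
        have h3 : (((QuotientGroup.mk (⟨n, hn⟩ : N) : N ⧸ H1).out : N) : G)⁻¹ * z.1 =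
          (((QuotientGroup.mk (⟨n, hn⟩ : N) : N ⧸ H1).out : N) : G)⁻¹ * n * c := by
          rw [← hnc]
          group
        rw [h3]
        refine L.mul_mem (hH'L h2) ?_
        rw [hL]
        exact Subgroup.mem_sup_right hc
    have hfi : (L.subgroupOf P).FiniteIndex := Subgroup.finiteIndex_of_finite_quotient
    exact hC.base.finiteIndex P (L.subgroupOf P) hfi
      (C_equiv hC.base (Subgroup.subgroupOfEquivOfLe hLP) hCL)
  refine Pool.Agent.Y529.FJ.t_ext C hC G N ?_ hQ fun g _ => hcyc g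
  exact C_le hC.base le_sup_left (hcyc 1)

end Run7.h79.FJ
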